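import Pool.Agent.V1127.KlFin

/-!
# The approximation ratio of the k-lookahead auction does not tend to 1

For every `k ≥ 2` the approximation ratio of the `k`-lookahead mechanism is at most `4/5`; hence
it does not tend to `1` as `k` tends to infinity.
-/

set_option autoImplicit false

namespace Pool.Agent.Results.MP_0f9109_lc.LookaheadRatio

open Pool.Agent.V1127.Kl

/-- `rho k` is the infimum, over all numbers of bidders, all finitely supported joint
distributions with positive optimal revenue, and all choices of revenue-maximal mechanisms for the
`k` highest bidders, of the ratio of the revenue of the `k`-lookahead mechanism to the optimal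
revenue. It is at most `4/5` for all `k ≥ 2`, so it does not tend to `1`. -/
theorem result :
    (∀ k : ℕ, 2 ≤ k → IsGLB (ratios k) (rho k) ∧ rho k ≤ 4 / 5) ∧
      ¬ Filter.Tendsto rho Filter.atTop (nhds 1) :=
  ⟨fun _ hk => ⟨rho_glb hk, rho_le hk⟩, not_tendsto⟩

end Pool.Agent.Results.MP_0f9109_lc.LookaheadRatio
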